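import Mathlib
import Pool.Agent.T2h34.CP.Reg

/-!
# Generic rigidity of cartesian products in all dimensions

The cartesian product of `d` connected graphs which are not trees is generically rigid in `ℝ^d`; a
factor with a cycle may be replaced by two trees with at least two vertices each. For products of
cycles and single edges this is sharp: with one exception, the triangular prism in the plane, a
product of at least two cycles or edges is generically rigid in `ℝ^d` if and only if its degree is
at least `2 d`. In particular the hypercube `Q_n`, `n ≥ 2`, is generically rigid in `ℝ^d` if and
only if `n ≥ 2 d`. No factor is assumed to be rigid in a dimension above one, and the degrees are as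
small as the count of edges allows.

The proof: contraction of the factors to triangles by frameworks with sliders; for the product of a
triangle with `H`, a placement with three layers in three hyperplanes, of which only two are
parallel, a first-order perturbation of this placement, and the choice of the third layer such that
the rank of the reduced system is as large as possible.
-/

set_option autoImplicit false

namespace Pool.Agent.Results.MP_37c7bf_co.CartesianProducts

open Pool.Agent.H283R2.DR Pool.Agent.T2h34.CP

/-- (1) Let `G i`, `i ∈ ι`, be finitely many connected finite graphs. Give weight 2 to each graph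
with a cycle and weight 1 to each tree with at least two vertices. If the sum of the weights is at
least `2 d`, then the cartesian product of the graphs `G i` is generically rigid in `ℝ^d`.

(2) Let `G i` be at least two connected finite graphs, each of which is a cycle (`k i = 2`: all
vertices have two neighbours) or a single edge (`k i = 1`: all vertices have one neighbour), such
that the product does not have six vertices (the only product with six vertices is the triangular
prism). Then for all `d` the cartesian product is generically rigid in `ℝ^d` if and only if
`2 d ≤ ∑ k i`, the degree of the product.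

(3) For `n ≥ 2` the hypercube graph `Q_n`, the product of `n` edges, is generically rigid in `ℝ^d`
if and only if `2 d ≤ n`. -/
theorem result :
    (∀ (ι : Type) [Fintype ι] (V : ι → Type) [∀ i, Fintype (V i)] (G : ∀ i, SimpleGraph (V i)),
      (∀ i, (G i).Connected) → ∀ d : ℕ, 2 * d ≤ ∑ i, wt (G i) → GenRigid d (cart G)) ∧
    (∀ (ι : Type) [Fintype ι] (V : ι → Type) [∀ i, Fintype (V i)] (G : ∀ i, SimpleGraph (V i)),
      (∀ i, (G i).Connected) → ∀ k : ι → ℕ, (∀ i, k i = 1 ∨ k i = 2) →
      (∀ i v, ((G i).neighborSet v).ncard = k i) → 2 ≤ Fintype.card ι →
      Nat.card (∀ i, V i) ≠ 6 →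
      ∀ d : ℕ, GenRigid d (cart G) ↔ 2 * d ≤ ∑ i, k i) ∧
    (∀ n d : ℕ, 2 ≤ n →
      (GenRigid d (cart fun _ : Fin n => (⊤ : SimpleGraph Bool)) ↔ 2 * d ≤ n)) := by
  refine ⟨fun ι _ V _ G hc d hd => family_rigid G hc hd,
    fun ι _ V _ G hc k hk hreg hι h6 d => regular_iff G hc k hk hreg hι h6 d, ?_⟩
  intro n d hn
  have h := regular_iff (fun _ : Fin n => (⊤ : SimpleGraph Bool))
    (fun _ => SimpleGraph.connected_top) (fun _ => 1) (fun _ => Or.inl rfl) ?_ ?_ ?_ d
  · rw [h]
    simp
  · intro _ v
    rw [SimpleGraph.neighborSet_top]
    have e : ({v}ᶜ : Set Bool) = {!v} := by
      ext b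
      cases b <;> cases v <;> simp
    rw [e, Set.ncard_singleton]
  · simpa using hn
  · rw [Nat.card_fun]
    simp only [Nat.card_eq_fintype_card, Fintype.card_bool, Fintype.card_fin]
    rcases Nat.lt_or_ge n 3 with h3 | h3
    · have : n = 2 := by omega
      subst this
      norm_num
    · have : 2 ^ 3 ≤ 2 ^ n := Nat.pow_le_pow_right (by norm_num) h3
      omega

end Pool.Agent.Results.MP_37c7bf_co.CartesianProducts
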