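import Mathlib
import Pool.Agent.T2h34.GR.Prod

/-!
# The dimension of rigidity of cartesian products is additive up to one

If `G` is generically rigid in `ℝ^i` and `H` is generically rigid in `ℝ^j`, then the cartesian
product `G □ H` is generically rigid in `ℝ^(i+j-1)`, as soon as both graphs have enough vertices
(`G` at least `(i+2).choose 2` and `H` at least `j + i * j.choose 2`, or the same with the roles
exchanged). The same is true for every graph `X` on a grid `V × W` whose rows are generically rigid
in `ℝ^i` and whose columns are generically rigid in `ℝ^j`; the rows (columns) need not be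
isomorphic. For minimally rigid `G` and `H` the dimension `i + j - 1` is the exact one: the product
is generically rigid in `ℝ^d` if and only if `d ≤ i + j - 1`.

The proof: in `ℝ^(i+j-1)` the rows are placed in `i`-dimensional plates and the columns in
`j`-dimensional plates, so that a row and a column meet in a line. A motion of the grid is a
system of infinitesimal isometries, one for each row and one for each column, such that those of a
row and a column agree along their common line. This system of conditions has full rank at an
explicit special position of the plates: the columns are the products of `ℝ^(j-1)` with the lines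
through two of `i + 2` points in general position in `ℝ^i`, and the rows are graphs of affine maps
from `ℝ^i` to `ℝ^(j-1)`. Finally the plates are moved so that all rows and columns are rigid.
-/

set_option autoImplicit false

namespace Pool.Agent.Results.MP_37c7bf_co.DimensionOfProducts

open Pool.Agent.H283R2.DR Pool.Agent.T2h34.GR

/-- Let `i, j ≥ 1` and let `V` and `W` be finite sets with `|V| ≥ (i+2).choose 2` and
`|W| ≥ j + i * j.choose 2`, or with `|W| ≥ (j+2).choose 2` and `|V| ≥ i + j * i.choose 2`.

(1) Let `X` be a graph on `V × W` such that for each `w` the graph induced on the row `V × {w}` is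
generically rigid in `ℝ^i` and for each `v` the graph induced on the column `{v} × W` is
generically rigid in `ℝ^j`. Then `X` is generically rigid in `ℝ^(i+j-1)`. In particular, `G □ H` is
generically rigid in `ℝ^(i+j-1)` if `G` is a graph on `V` which is generically rigid in `ℝ^i` and `H`
is a graph on `W` which is generically rigid in `ℝ^j`.

(2) If moreover `|V| > i`, `|W| > j`, `G` is minimally rigid in `ℝ^i` (it has
`i |V| - i (i + 1) / 2` edges) and `H` is minimally rigid in `ℝ^j`, then for all `d`, the product
`G □ H` is generically rigid in `ℝ^d` if and only if `d ≤ i + j - 1`. -/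
theorem result (i j : ℕ) (hi : 1 ≤ i) (hj : 1 ≤ j) (V W : Type) [Fintype V] [Fintype W]
    (hVW : ((i + 2).choose 2 ≤ Fintype.card V ∧ j + i * j.choose 2 ≤ Fintype.card W) ∨
      ((j + 2).choose 2 ≤ Fintype.card W ∧ i + j * i.choose 2 ≤ Fintype.card V)) :
    (∀ X : SimpleGraph (V × W),
      (∀ w : W, GenRigid i (X.comap fun v => (v, w))) →
      (∀ v : V, GenRigid j (X.comap fun w => (v, w))) → GenRigid (i + j - 1) X) ∧
    (∀ (G : SimpleGraph V) (H : SimpleGraph W), GenRigid i G → GenRigid j H →
      GenRigid (i + j - 1) (G □ H)) ∧
    (∀ (G : SimpleGraph V) (H : SimpleGraph W), i < Fintype.card V → j < Fintype.card W →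
      GenRigid i G → G.edgeSet.ncard + i * (i + 1) / 2 = i * Fintype.card V →
      GenRigid j H → H.edgeSet.ncard + j * (j + 1) / 2 = j * Fintype.card W →
      ∀ d : ℕ, GenRigid d (G □ H) ↔ d ≤ i + j - 1) :=
  ⟨fun _ hrow hcol => grid' hi hj hVW hrow hcol,
    fun _ _ hG hH => prod_rigid hi hj hVW hG hH,
    fun _ _ hV hW hG hG' hH hH' d => prod_iff hi hj hV hW hVW hG hH hG' hH' d⟩

end Pool.Agent.Results.MP_37c7bf_co.DimensionOfProducts
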