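import Mathlib
import Pool.Agent.T2h34.RK.Fin2
import Pool.Agent.T2h34.RK.T_CNT2
import Pool.Agent.T2h34.RK.T_PEN
import Pool.Agent.T2h34.RK.T_NECF

/-!
# The generic rank of cartesian products

Let `d ≥ 3`, let `G` be any finite graph with the vertex set `V`, and for each vertex `x` of `G` let
`H x` be a graph with the vertex set `W`, generically rigid in `ℝ^(d-1)`, where
`n = |W| ≥ d (3 d - 5) / 2` (`n ≥ 6` for `d = 3`). Let `X` be the graph with the vertex set `V × W`
and the fibres `H x`, in which the fibres of adjacent vertices are joined by the `n` edges between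
corresponding points; `X` is the cartesian product `G □ H` if all `H x` are equal to `H`.

Then the space of infinitesimal motions of `X` in `ℝ^d` at generic placements has at most the
dimension `max (D m + (n + k) s - n e)`, where `D = d (d + 1) / 2`, `k = d (d - 1) / 2`, and the
maximum is over the partitions of `V`, with `s` classes with one element, `m` other classes and `e`
edges of `G` between different classes. If the fibres are minimally rigid in `ℝ^(d-1)`, then this is
the exact dimension.

Proof. In the special placements which are used the points of each fibre lie in a hyperplane. The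
fibres are then plates, with `n + k` motions each. The proof is by induction. Plates with at most two
neighbours and rigid bodies with at most one neighbour can be removed; here one uses that the points
of the last plate are generic and that the plates have all permutations of `W` as symmetries. If after
deletion of an edge some partition which is not trivial is optimal, then a class of it is a rigid
body by induction. Otherwise there are too many edges.
-/

set_option autoImplicit false

namespace Pool.Agent.Results.MP_37c7bf_co.ProductRankFormula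

open Pool.Agent.H283R2.DR Pool.Agent.H789R5 Pool.Agent.T2h34.RK

/-- The graph on `V × W` in which `(x, h)` and `(y, h')` are adjacent if `x = y` and `h`, `h'` are
adjacent in `H x`, or if `h = h'` and `x`, `y` are adjacent in `G`. -/
def fibred {V W : Type} (G : SimpleGraph V) (H : V → SimpleGraph W) : SimpleGraph (V × W) where
  Adj x y := (x.1 = y.1 ∧ (H x.1).Adj x.2 y.2) ∨ (x.2 = y.2 ∧ G.Adj x.1 y.1)
  symm := ⟨by
    rintro x y (⟨h1, h2⟩ | ⟨h1, h2⟩)
    · refine Or.inl ⟨h1.symm, ?_⟩
      rw [← h1]
      exact h2.symm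
    · exact Or.inr ⟨h1.symm, h2.symm⟩⟩
  loopless := ⟨by
    rintro x (⟨_, h2⟩ | ⟨_, h2⟩)
    · exact h2.ne rfl
    · exact h2.ne rfl⟩

/-- With equal fibres one obtains the cartesian product. -/
theorem fibred_const {V W : Type} (G : SimpleGraph V) (H : SimpleGraph W) :
    fibred G (fun _ => H) = G □ H := by
  ext x y
  rw [SimpleGraph.boxProd_adj]
  constructor
  · rintro (⟨h1, h2⟩ | ⟨h1, h2⟩)
    · exact Or.inr ⟨h2, h1⟩
    · exact Or.inl ⟨h2, h1⟩
  · rintro (⟨h1, h2⟩ | ⟨h1, h2⟩)
    · exact Or.inr ⟨h2, h1⟩
    · exact Or.inl ⟨h2, h1⟩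

/-- the number of the classes with exactly one element of the partition of `V` into the classes
`{x | f x = c}` -/
noncomputable def small {V : Type} (f : V → ℕ) : ℕ := {c | {x | f x = c}.ncard = 1}.ncard

/-- the number of the classes with at least two elements -/
noncomputable def large {V : Type} (f : V → ℕ) : ℕ := {c | 2 ≤ {x | f x = c}.ncard}.ncard

/-- the number of the edges of `G` between different classes -/
noncomputable def across {V : Type} (G : SimpleGraph V) (f : V → ℕ) : ℕ :=
  {e | e ∈ G.edgeSet ∧ ∃ x y, e = s(x, y) ∧ f x ≠ f y}.ncard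

/-- the number `D m + (n + k) s - n e` of a partition, where `D = d (d + 1) / 2` and
`k = d (d - 1) / 2` -/
noncomputable def count (d n : ℕ) {V : Type} (G : SimpleGraph V) (f : V → ℕ) : ℤ :=
  ((d * (d + 1) / 2 : ℕ) : ℤ) * large f + ((n + d * (d - 1) / 2 : ℕ) : ℤ) * small f -
    (n : ℤ) * across G f

theorem count_val {V : Type} [Finite V] (d n : ℕ) (G : SimpleGraph V) (f : V → ℕ) :
    val n (d * (d - 1) / 2) (d * (d + 1) / 2) G ∅ f = 2 * count d n G f := by
  have h1 : (cls f : ℤ) = small f + large f := by exact_mod_cast bigCl_eq f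
  have h2 : (sing ∅ f : ℤ) = small f := by exact_mod_cast oneCl_eq f
  have h3 : (pr G f : ℤ) = 2 * across G f := by exact_mod_cast cross_eq G f
  unfold val count
  rw [h1, h2, h3]
  push_cast
  ring

/-- **Theorem.** Let `d ≥ 3`, let `G` be a finite graph on `V`, and for each `x` let `H x` be a graph
on `W` which is generically rigid in `ℝ^(d-1)`, where `2 |W| ≥ d (3 d - 5)`. Let `r` be the rank of
`fibred G H` in the generic rigidity matroid of `ℝ^d`. Then `d |V| |W| - r` is at most
`D m + (n + k) s - n e` for some partition of `V`. If moreover each `H x` is minimally rigid in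
`ℝ^(d-1)`, i.e. has only `(d - 1) |W| - k` edges, then `d |V| |W| - r` is the maximum of these
numbers, and `fibred G H` is generically rigid in `ℝ^d` if and only if all these numbers are at
most `D`. -/
theorem result (d : ℕ) (hd : 3 ≤ d) (V W : Type) [Fintype V] [Nonempty V] [Fintype W]
    (hW : d * (3 * d - 5) ≤ 2 * Fintype.card W) (G : SimpleGraph V) (H : V → SimpleGraph W)
    (hH : ∀ x, GenRigid (d - 1) (H x)) :
    (∃ f : V → ℕ, ((d * (Fintype.card V * Fintype.card W) : ℕ) : ℤ) - genRank d (fibred G H) ≤
      count d (Fintype.card W) G f) ∧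
    ((∀ x, (H x).edgeSet.ncard + d * (d - 1) / 2 = (d - 1) * Fintype.card W) →
      IsGreatest (Set.range fun f : V → ℕ => count d (Fintype.card W) G f)
        (((d * (Fintype.card V * Fintype.card W) : ℕ) : ℤ) - genRank d (fibred G H)) ∧
      (GenRigid d (fibred G H) ↔
        ∀ f : V → ℕ, count d (Fintype.card W) G f ≤ ((d * (d + 1) / 2 : ℕ) : ℤ))) := by
  classical
  obtain ⟨μ, rfl⟩ : ∃ μ, d = μ + 1 := ⟨d - 1, by omega⟩
  have hμ : 2 ≤ μ := by omega
  simp only [Nat.add_sub_cancel] at hH ⊢
  have e35 : (μ + 1) * (3 * (μ + 1) - 5) = 3 * (μ * μ) + μ - 2 := by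
    obtain ⟨m, rfl⟩ : ∃ m, μ = m + 2 := ⟨μ - 2, by omega⟩
    have h1 : 3 * (m + 2 + 1) - 5 = 3 * m + 4 := by omega
    rw [h1]
    have h2 : 3 * ((m + 2) * (m + 2)) + (m + 2) - 2 = 3 * ((m + 2) * (m + 2)) + m := by omega
    rw [h2]
    ring
  rw [e35] at hW
  have hμ2 : 2 * μ ≤ μ * μ := Nat.mul_le_mul_right μ hμ
  have hdiv : 2 * (μ * (μ + 1) / 2) = μ * μ + μ := by
    have h2 : 2 ∣ μ * (μ + 1) := (Nat.even_mul_succ_self μ).two_dvd
    have h3 : μ * (μ + 1) = μ * μ + μ := by ring
    omega
  have hdiv' : 2 * ((μ + 1) * (μ + 1 + 1) / 2) = μ * μ + 3 * μ + 2 := by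
    have h2 : 2 ∣ (μ + 1) * (μ + 1 + 1) := (Nat.even_mul_succ_self (μ + 1)).two_dvd
    have h3 : (μ + 1) * (μ + 1 + 1) = μ * μ + 3 * μ + 2 := by ring
    omega
  have hcomm : (μ + 1) * μ / 2 = μ * (μ + 1) / 2 := by rw [mul_comm]
  have hcard : Fintype.card (V × W) = Fintype.card V * Fintype.card W := Fintype.card_prod V W
  have hfg : fibred G H = FG G H := rfl
  have hcv : ∀ f : V → ℕ, val (Fintype.card W) (μ * (μ + 1) / 2) ((μ + 1) * (μ + 1 + 1) / 2) G ∅ f =
      2 * count (μ + 1) (Fintype.card W) G f := by
    intro f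
    have h := count_val (μ + 1) (Fintype.card W) G f
    rw [Nat.add_sub_cancel, hcomm] at h
    exact h
  obtain ⟨f0, P, h0⟩ := upper2 t_PEN t_CNT2 hμ V W G H hH (Fintype.card W)
    Nat.card_eq_fintype_card.symm (by omega) (by omega) (by omega)
  rw [hcv] at h0
  have h1 : ((μ + 1) * (Fintype.card V * Fintype.card W) : ℕ) - (genRank (μ + 1) (fibred G H) : ℤ) ≤
      count (μ + 1) (Fintype.card W) G f0 := by
    have h2 := rank_ge (FG G H) P
    rw [hcard] at h2
    rw [hfg]
    zify at h2
    push_cast
    linarith
  refine ⟨⟨f0, h1⟩, fun hE => ?_⟩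
  obtain ⟨p, hp⟩ := exists_mg (V × W) (μ + 1)
  have h3 := genRank_add hp (FG G H)
  rw [hcard] at h3
  have h4 : ∀ f : V → ℕ, count (μ + 1) (Fintype.card W) G f ≤
      ((μ + 1) * (Fintype.card V * Fintype.card W) : ℕ) -
        (genRank (μ + 1) (fibred G H) : ℤ) := by
    intro f
    have h5 := t_NECF V W G H (μ + 1) (Fintype.card W) (μ * (μ + 1) / 2)
      Nat.card_eq_fintype_card (by omega) (by
        intro x Q
        have h6 := mo_ge (H x) Q
        have h7 := hE x
        rw [hcomm] at h7
        have h8 : (μ + 1) * Fintype.card W = μ * Fintype.card W + Fintype.card W := by ring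
        omega) f p
    rw [hcv] at h5
    rw [hfg]
    zify at h3
    push_cast
    linarith
  refine ⟨⟨⟨f0, le_antisymm (h4 f0) h1⟩, ?_⟩, ?_⟩
  · rintro _ ⟨f, rfl⟩
    exact h4 f
  · rw [hfg, genRigid_iff hp (by
      rw [hcard]
      have h9 : 1 ≤ Fintype.card V := Fintype.card_pos
      have h10 : Fintype.card W ≤ Fintype.card V * Fintype.card W := Nat.le_mul_of_pos_left _ h9
      omega)]
    constructor
    · intro h f
      have h11 := h4 f
      rw [hfg] at h11
      have h12 : (mo (FG G H) p : ℤ) ≤ ((μ + 1) * (μ + 1 + 1) / 2 : ℕ) := by exact_mod_cast h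
      zify at h3
      push_cast at h11 h12 ⊢
      linarith
    · intro h
      have h13 := h f0
      rw [hfg] at h1
      zify at h3
      have h14 : (mo (FG G H) p : ℤ) ≤ ((μ + 1) * (μ + 1 + 1) / 2 : ℕ) := by
        push_cast at h1 h13 ⊢
        linarith
      exact_mod_cast h14

end Pool.Agent.Results.MP_37c7bf_co.ProductRankFormula
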