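import Mathlib
import Pool.Agent.T2h34.VT.Sharp
import Pool.Agent.T2h34.VT.Three

/-!
# Generic rigidity of vertex-transitive graphs of large degree

In space: a vertex-transitive graph of degree at least ten is generically rigid if and only if it
satisfies the counting condition for the partitions of its vertex set into classes of at least
three vertices.

In `ℝ^d`: a connected vertex-transitive graph of degree at least `d (d + 1)` is generically rigid;
this bound is best possible; and the flexible connected vertex-transitive graphs of degree at least
`3 d (d + 1) / 4 + 1` consist of blocks, of less than `d (d + 1)` vertices each, which are cliques of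
the closure in the generic rigidity matroid, and of a perfect matching between the blocks.

The proof of the structure theorem: we delete the vertices of the closure of the graph in random
order, following Villányi's proof of the Lovász-Yemini conjecture, and bound the expected drop of the
rank by the structure of the neighbourhoods. Part (3) uses the rank formula for graphs composed of
rigid parts (`MP_37c7bf_co.RigidPartsAndProducts`, among the starting files).
-/

set_option autoImplicit false

namespace Pool.Agent.Results.MP_37c7bf_co.VertexTransitiveDegreeTen

open Pool.Agent.H283R2.DR Pool.Agent.H789R5 Pool.Agent.Y530.TN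

/-- `GenRigid d G`: the finite graph `G` is generically rigid in `ℝ^d`; `genRank d G` is its generic
rank in `ℝ^d`; `between G id r` is the number of edges of `G` which join different classes of the
equivalence relation `r` on the vertex set.

(1) Let `G` be a finite vertex-transitive graph of degree at least `10`. Then `G` is generically
rigid in `ℝ³` if and only if for each partition of its vertex set into classes with at least three
vertices, `m` classes say, there are at least `6 (m - 1)` edges between different classes.

(2) For all `d`, each connected finite vertex-transitive graph of degree at least `d (d + 1)` is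
generically rigid in `ℝ^d`. For all `d ≥ 2` there is a connected finite vertex-transitive graph
of degree `d (d + 1) - 1` which is not generically rigid in `ℝ^d`.

(3) Let `G` be a connected finite vertex-transitive graph of degree `k ≥ 3 d (d + 1) / 4 + 1` which
is not generically rigid in `ℝ^d`. Then there are a number `b` with `k ≤ b < d (d + 1)` and an
equivalence relation on the vertex set, preserved by all automorphisms of `G`, such that each
class has `b` vertices, each vertex has exactly one neighbour outside its class, and adding to `G`
an edge between two vertices of a class does not change the generic rank in `ℝ^d`. -/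
theorem result :
    (∀ (V : Type) [Fintype V] (G : SimpleGraph V) [DecidableRel G.Adj],
      (∀ u v, ∃ φ : G ≃g G, φ u = v) → (∀ v, 10 ≤ G.degree v) →
      (GenRigid 3 G ↔ ∀ r : Setoid V, (∀ v, 3 ≤ {u | r v u}.ncard) →
        6 * Nat.card (Quotient r) ≤ between G id r + 6)) ∧
    (∀ (d : ℕ) (V : Type) [Fintype V] (G : SimpleGraph V) [DecidableRel G.Adj], G.Connected →
      (∀ u v, ∃ φ : G ≃g G, φ u = v) → (∀ v, d * (d + 1) ≤ G.degree v) → GenRigid d G) ∧
    (∀ d : ℕ, 2 ≤ d → ∃ (V : Type) (_ : Fintype V) (G : SimpleGraph V) (_ : DecidableRel G.Adj),
      G.Connected ∧ (∀ u v, ∃ φ : G ≃g G, φ u = v) ∧ (∀ v, G.degree v + 1 = d * (d + 1)) ∧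
      ¬ GenRigid d G) ∧
    (∀ (d : ℕ) (V : Type) [Fintype V] (G : SimpleGraph V) [DecidableRel G.Adj], G.Connected →
      (∀ u v, ∃ φ : G ≃g G, φ u = v) → (∀ v, 3 * (d * (d + 1)) + 4 ≤ 4 * G.degree v) →
      ¬ GenRigid d G →
      ∃ (b : ℕ) (r : Setoid V), b < d * (d + 1) ∧ (∀ v, G.degree v ≤ b) ∧
        (∀ (φ : G ≃g G) (u v : V), r u v → r (φ u) (φ v)) ∧
        (∀ v, {u | r v u}.ncard = b) ∧
        (∀ v, {u | G.Adj v u ∧ ¬ r v u}.ncard = 1) ∧
        (∀ u v, r u v → u ≠ v → genRank d (G ⊔ SimpleGraph.edge u v) = genRank d G)) := by
  classical
  refine ⟨?_, ?_, ?_, ?_⟩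
  · intro V _ G _ htr hk
    exact Pool.Agent.T2h34.VT.three_iff htr hk
  · intro d V _ G _ hG htr hk
    exact Pool.Agent.T2h34.VT.rigid_of_degree hG htr hk
  · intro d hd
    have h6 : 6 ≤ d * (d + 1) := by nlinarith
    have hs : 1 ≤ d * (d + 1) - 1 := by omega
    refine ⟨_, inferInstance, Pool.Agent.T2h34.VT.Tr (d * (d + 1) - 1), inferInstance,
      Pool.Agent.T2h34.VT.tr_connected hs, Pool.Agent.T2h34.VT.tr_trans _, ?_,
      Pool.Agent.T2h34.VT.sharp hd⟩
    intro v
    rw [Pool.Agent.T2h34.VT.tr_degree hs]
    omega
  · intro d V _ G _ hG htr hk hr
    obtain ⟨b, r, h1, h2, h3⟩ := Pool.Agent.T2h34.VT.structure_thm hG htr hk hr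
    exact ⟨b, r, h1, h2, h3.aut, h3.card, h3.outside, h3.linked⟩

end Pool.Agent.Results.MP_37c7bf_co.VertexTransitiveDegreeTen
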